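import Pool.Agent.Work.MP_ac5e87_al.Main
import Pool.Agent.Work.MP_ac5e87_al.Twelve

/-!
# `Out(F_3)` modulo twelfth powers

The inner automorphisms together with the normal closure of the twelfth powers have index two in
`Aut(F_3)`.
-/

set_option autoImplicit false

namespace Pool.Agent.Results.MP_ac5e87_al.RankThreeTwelve

theorem result :
    ((MulAut.conj : FreeGroup (Fin 3) →* MulAut (FreeGroup (Fin 3))).range ⊔
      Subgroup.normalClosure
        {g : MulAut (FreeGroup (Fin 3)) | ∃ a : MulAut (FreeGroup (Fin 3)), g = a ^ 12}).index =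
      2 := by
  have := Pool.Agent.Work.OutFn.powSub_normal (Fin 3) 12
  refine Pool.Agent.Work.OutFn.index_of_rho (α := Fin 3) (p := 12) (by simp) ?_
  intro i j hij
  rw [← QuotientGroup.eq_one_iff]
  refine Pool.Agent.Work.OutFn.rho_twelve (by simp)
    (φ := QuotientGroup.mk' (Pool.Agent.Work.OutFn.powSub (Fin 3) 12)) (fun g => ?_) hij
  rw [← map_pow]
  exact (QuotientGroup.eq_one_iff _).2 (Pool.Agent.Work.OutFn.pow_mem_powSub g)

end Pool.Agent.Results.MP_ac5e87_al.RankThreeTwelve
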