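import Pool.Agent.Work.MP_ac5e87_al.Main

/-!
# `Out(F_n)` modulo `p`-th powers for small exponents

The inner automorphisms together with the normal closure of the `p`-th powers have index
`gcd(2, p)` in `Aut(F_n)` as soon as `Aut(F_n)` contains an element of prime power order
`r ^ (b + 1)`, `r ^ b * (r - 1) ≤ n`, which does not divide `p`.
-/

set_option autoImplicit false

namespace Pool.Agent.Results.MP_ac5e87_al.SmallExponents

theorem result (n p : ℕ) (hn : 3 ≤ n)
    (h : ∃ r b : ℕ, r.Prime ∧ r ^ b * (r - 1) ≤ n ∧ (r = 2 → 2 ^ b < n) ∧ ¬ r ^ (b + 1) ∣ p) :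
    ((MulAut.conj : FreeGroup (Fin n) →* MulAut (FreeGroup (Fin n))).range ⊔
      Subgroup.normalClosure
        {g : MulAut (FreeGroup (Fin n)) | ∃ a : MulAut (FreeGroup (Fin n)), g = a ^ p}).index =
      Nat.gcd 2 p := by
  have h3 : 3 ≤ Fintype.card (Fin n) := by simpa using hn
  have h4 : Pool.Agent.Work.OutFn.Cond (Fintype.card (Fin n)) p := by
    rw [Fintype.card_fin]
    exact h
  exact Pool.Agent.Work.OutFn.index_powSub h3 h4

end Pool.Agent.Results.MP_ac5e87_al.SmallExponents
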